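import Mathlib

/-!
Evaluation of independence polynomials (value and logarithmic derivative at `2`) of small graphs.
-/

set_option autoImplicit false

namespace Pool.Agent.W159.Occ

open Finset

open Classical in
/-- the sum of `2 ^ |I|` over the independent subsets of `S` -/
noncomputable def ZZ {V : Type} [Fintype V] (G : SimpleGraph V) (S : Finset V) : ℕ :=
  ∑ I ∈ S.powerset, if G.IsIndepSet (I : Set V) then 2 ^ I.card else 0

open Classical in
/-- the sum of `|I| * 2 ^ |I|` over the independent subsets of `S` -/
noncomputable def DD {V : Type} [Fintype V] (G : SimpleGraph V) (S : Finset V) : ℕ :=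
  ∑ I ∈ S.powerset, if G.IsIndepSet (I : Set V) then I.card * 2 ^ I.card else 0

open Classical in
lemma indep_insert {V : Type} (G : SimpleGraph V) (v : V) (J : Finset V) :
    G.IsIndepSet ((insert v J : Finset V) : Set V) ↔
      G.IsIndepSet (J : Set V) ∧ ∀ w ∈ J, ¬ G.Adj v w := by
  constructor
  · intro h
    refine ⟨fun a ha b hb hab => h (by simp at ha ⊢; exact Or.inr ha) (by simp at hb ⊢; exact Or.inr hb) hab, ?_⟩
    intro w hw hadj
    exact h (by simp) (by simp; exact Or.inr hw) hadj.ne hadj
  · rintro ⟨h1, h2⟩ a ha b hb hab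
    simp only [coe_insert, Set.mem_insert_iff, mem_coe] at ha hb
    rcases ha with rfl | ha
    · rcases hb with rfl | hb
      · exact absurd rfl hab
      · exact h2 b hb
    · rcases hb with rfl | hb
      · exact fun h => h2 a ha h.symm
      · exact h1 ha hb hab

open Classical in
lemma sum_step {V : Type} (G : SimpleGraph V) (S : Finset V) (v : V) (hv : v ∉ S)
    (F F' : Finset V → ℕ) (hF : ∀ I, v ∉ I → F (insert v I) = F' I) :
    ∑ I ∈ (insert v S).powerset, (if G.IsIndepSet (I : Set V) then F I else 0) =
      ∑ I ∈ S.powerset, (if G.IsIndepSet (I : Set V) then F I else 0) +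
      ∑ I ∈ (S.filter (fun w => ¬ G.Adj v w)).powerset,
        (if G.IsIndepSet (I : Set V) then F' I else 0) := by
  rw [Finset.sum_powerset_insert hv]
  congr 1
  symm
  have hsub : (S.filter (fun w => ¬ G.Adj v w)).powerset ⊆ S.powerset :=
    powerset_mono.2 (filter_subset _ _)
  have h1 : ∀ I ∈ S.powerset, I ∉ (S.filter (fun w => ¬ G.Adj v w)).powerset →
      (if G.IsIndepSet ((insert v I : Finset V) : Set V) then F (insert v I) else 0) = 0 := by
    intro I hI hI'
    rw [if_neg]
    rw [indep_insert]
    rintro ⟨-, h⟩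
    apply hI'
    rw [mem_powerset] at hI ⊢
    intro w hw
    exact mem_filter.2 ⟨hI hw, h w hw⟩
  rw [← Finset.sum_subset hsub h1]
  refine Finset.sum_congr rfl ?_
  intro I hI
  have hI1 := mem_powerset.1 hI
  have hvI : v ∉ I := fun h => hv (mem_filter.1 (hI1 h)).1
  have h2 : G.IsIndepSet ((insert v I : Finset V) : Set V) ↔ G.IsIndepSet (I : Set V) := by
    rw [indep_insert]
    exact ⟨fun h => h.1, fun h => ⟨h, fun w hw => (mem_filter.1 (hI1 hw)).2⟩⟩
  rw [hF I hvI]
  simp only [h2]

open Classical in
lemma ZZ_insert {V : Type} [Fintype V] (G : SimpleGraph V) (S : Finset V) (v : V) (hv : v ∉ S) :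
    ZZ G (insert v S) = ZZ G S + 2 * ZZ G (S.filter (fun w => ¬ G.Adj v w)) := by
  unfold ZZ
  rw [sum_step G S v hv (fun I => 2 ^ I.card) (fun I => 2 * 2 ^ I.card)
    (fun I hI => by rw [card_insert_of_notMem hI, pow_succ]; ring), mul_sum]
  congr 1
  refine Finset.sum_congr rfl fun I _ => ?_
  split_ifs <;> ring

open Classical in
lemma DD_insert {V : Type} [Fintype V] (G : SimpleGraph V) (S : Finset V) (v : V) (hv : v ∉ S) :
    DD G (insert v S) = DD G S + 2 * (DD G (S.filter (fun w => ¬ G.Adj v w)) +
      ZZ G (S.filter (fun w => ¬ G.Adj v w))) := by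
  unfold DD ZZ
  rw [sum_step G S v hv (fun I => I.card * 2 ^ I.card)
    (fun I => 2 * (I.card * 2 ^ I.card + 2 ^ I.card))
    (fun I hI => by rw [card_insert_of_notMem hI, pow_succ]; ring), ← sum_add_distrib, mul_sum]
  congr 1
  refine Finset.sum_congr rfl fun I _ => ?_
  split_ifs <;> ring

/-- the evaluator: `c k` is the mask of the non-neighbours of `k` -/
def ev (c : ℕ → ℕ) : ℕ → ℕ → ℕ × ℕ
  | 0, _ => (1, 0)
  | k + 1, m =>
    match m.testBit k with
    | true =>
      match ev c k m, ev c k (m &&& c k) with
      | (a, b), (a', b') => (a + 2 * a', b + 2 * (b' + a'))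
    | false => ev c k m

/-- the vertices with index below `k` whose bit in `m` is set -/
def SS {V : Type} [Fintype V] {n : ℕ} (e : V ≃ Fin n) (k m : ℕ) : Finset V :=
  univ.filter (fun v => (e v).val < k ∧ m.testBit (e v).val = true)

open Classical in
theorem ev_eq {V : Type} [Fintype V] {n : ℕ} (e : V ≃ Fin n) (G : SimpleGraph V) (c : ℕ → ℕ)
    (hc : ∀ v w : V, (c (e v).val).testBit (e w).val = !(decide (G.Adj v w))) :
    ∀ k m : ℕ, k ≤ n → ev c k m = (ZZ G (SS e k m), DD G (SS e k m)) := by
  intro k
  induction k with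
  | zero =>
    intro m _
    have h : SS e 0 m = ∅ := by
      unfold SS
      ext v
      simp
    rw [h]
    simp [ev, ZZ, DD]
  | succ k ih =>
    intro m hk
    have hk' : k < n := hk
    set v : V := e.symm ⟨k, hk'⟩ with hv
    have hev : (e v).val = k := by simp [hv]
    by_cases hb : m.testBit k = true
    · have hS : SS e (k + 1) m = insert v (SS e k m) := by
        ext w
        simp only [SS, mem_filter, mem_univ, true_and, mem_insert]
        constructor
        · rintro ⟨h1, h2⟩
          rcases Nat.lt_succ_iff_lt_or_eq.1 h1 with h | h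
          · exact Or.inr ⟨h, h2⟩
          · left
            rw [hv]
            apply e.injective
            rw [Equiv.apply_symm_apply]
            exact Fin.ext h
        · rintro (h | ⟨h1, h2⟩)
          · subst h
            rw [hev]
            exact ⟨Nat.lt_succ_self k, hb⟩
          · exact ⟨Nat.lt_succ_of_lt h1, h2⟩
      have hvS : v ∉ SS e k m := by
        simp only [SS, mem_filter, mem_univ, true_and, not_and]
        intro h
        rw [hev] at h
        exact absurd h (lt_irrefl _)
      have hF : (SS e k m).filter (fun w => ¬ G.Adj v w) = SS e k (m &&& c k) := by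
        ext w
        simp only [SS, mem_filter, mem_univ, true_and, Nat.testBit_and, Bool.and_eq_true]
        have := hc v w
        rw [hev] at this
        rw [this]
        simp only [Bool.not_eq_true', decide_eq_false_iff_not]
        tauto
      rw [hS, ZZ_insert G _ v hvS, DD_insert G _ v hvS, hF]
      have h1 := ih m (Nat.le_of_lt hk')
      have h2 := ih (m &&& c k) (Nat.le_of_lt hk')
      rw [ev, hb, h1, h2]
    · have hb' : m.testBit k = false := by simpa using hb
      have hS : SS e (k + 1) m = SS e k m := by
        ext w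
        simp only [SS, mem_filter, mem_univ, true_and]
        constructor
        · rintro ⟨h1, h2⟩
          rcases Nat.lt_succ_iff_lt_or_eq.1 h1 with h | h
          · exact ⟨h, h2⟩
          · rw [h, hb'] at h2
            exact absurd h2 (by decide)
        · rintro ⟨h1, h2⟩
          exact ⟨Nat.lt_succ_of_lt h1, h2⟩
      rw [hS, ev, hb']
      exact ih m (Nat.le_of_lt hk')

/-- the sums of the statement at `l = 2` -/
theorem sums_eq {V : Type} [Fintype V] {n : ℕ} (e : V ≃ Fin n) (G : SimpleGraph V)
    (inst : ∀ I : Finset V, Decidable (G.IsIndepSet (I : Set V))) (c : ℕ → ℕ)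
    (hc : ∀ v w : V, (c (e v).val).testBit (e w).val = false ↔ G.Adj v w)
    (m : ℕ) (hm : ∀ v : V, m.testBit (e v).val = true) (a b : ℕ) (h : ev c n m = (a, b)) :
    (∑ I : Finset V, if G.IsIndepSet (I : Set V) then (2 : ℝ) ^ I.card else 0) = a ∧
    (∑ I : Finset V, if G.IsIndepSet (I : Set V) then (I.card : ℝ) * 2 ^ I.card else 0) = b := by
  classical
  have hc' : ∀ v w : V, (c (e v).val).testBit (e w).val = !(@decide (G.Adj v w) (Classical.propDecidable _)) := by
    intro v w
    by_cases hb : G.Adj v w
    · rw [(hc v w).2 hb, decide_eq_true hb]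
      rfl
    · have : (c (e v).val).testBit (e w).val ≠ false := fun h => hb ((hc v w).1 h)
      rw [decide_eq_false hb]
      simpa using this
  have hS : SS e n m = univ := by
    ext v
    simp only [SS, mem_filter, mem_univ, true_and, iff_true]
    exact ⟨(e v).isLt, hm v⟩
  have h1 := ev_eq e G c hc' n m le_rfl
  rw [h, hS] at h1
  obtain ⟨ha, hb⟩ := Prod.mk.inj h1
  constructor
  · rw [ha]
    unfold ZZ
    rw [powerset_univ]
    push_cast
    refine Finset.sum_congr rfl fun I _ => ?_
    by_cases hI : G.IsIndepSet (I : Set V)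
    · simp [hI]
    · simp [hI]
  · rw [hb]
    unfold DD
    rw [powerset_univ]
    push_cast
    refine Finset.sum_congr rfl fun I _ => ?_
    by_cases hI : G.IsIndepSet (I : Set V)
    · simp [hI]
    · simp [hI]

end Pool.Agent.W159.Occ
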